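import Mathlib
import Pool.Agent.H679DW.Final

set_option autoImplicit false

open Set Cardinal

namespace Pool.Agent.Results.MP_cba831_lc.LusinDowker

open Pool.Agent.H679DW

/-- It is consistent with ZFC that there is a first-countable, locally countable Dowker space of size
`ℵ₁` but no Lusin set.

* First part: there are a (nonempty) forcing notion `P` and a linear order `W` such that every
  condition of `P` forces the sentence `Phi P W` of the forcing language of `P`. (`W` is the
  well-ordered set `ω₁`, and `P` is the product of the countably closed forcing notion which adds a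
  family of sequences indexed by `ω₁` with countable conditions, and the forcing notion adding many
  random reals.) No hypothesis is made.
* Second part: for the trivial forcing notion `Phi` has its ordinary meaning, spelled out in `Phi₀`.
* Third part: if some `W` satisfies `Phi₀`, then there is a first-countable, locally countable Dowker
  space of size `ℵ₁` (normal, `T₁`, not countably paracompact) and there is no Lusin set. -/
theorem result :
    (∃ (P W : Type) (_ : Preorder P) (_ : LinearOrder W), Nonempty P ∧ ∀ p : P, p ∈ Phi P W) ∧
    (∀ (W : Type) [LinearOrder W], PUnit.unit ∈ Phi PUnit.{1} W ↔ Phi₀ W) ∧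
    ((∃ (W : Type) (_ : LinearOrder W), Phi₀ W) →
      (∃ (X : Type) (_ : TopologicalSpace X), #X = ℵ₁ ∧ FirstCountableTopology X ∧
        (∀ x : X, ∃ U : Set X, IsOpen U ∧ x ∈ U ∧ U.Countable) ∧
        T1Space X ∧ NormalSpace X ∧ ¬ CountablyParacompact X) ∧
      ¬ ∃ L : Set ℝ, ¬ L.Countable ∧ ∀ M : Set ℝ, IsMeagre M → (L ∩ M).Countable) := by
  refine ⟨exists_forcing, fun W _ => phi_iff W, ?_⟩
  rintro ⟨W, _, hW⟩
  exact plain hW

end Pool.Agent.Results.MP_cba831_lc.LusinDowker
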